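import Pool.Agent.Helper4.SD.All

/-!
# The special sets of weighted complete intersections have codimension at most `κ + 2`

MP_160ed4_ag, Q1. Let `X` be the variety with the equations `H j = 0`, `j < s`, in the weighted
projective space `P(1, …, 1, e 1, …, e r)` with the coordinates `x 0, …, x n`, `w 1, …, w r`, where the
`H j` are ANY weighted homogeneous polynomials of degrees `D j ≥ 1` without common zeros with
`x = 0`, that is, `X` is finite over its image in `P^n`. No smoothness is assumed: `X` is a complete
intersection in `P^n` (`r = 0`), a multi-cyclic or any other finite covering of `P^n` or of a complete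
intersection, and so on. Let `κ = ∑ D j - ∑ e i - n - 1` (the canonical degree) and `w = n + r - s`
(the dimension, if `X` is a complete intersection).

If `1 ≤ δ ≤ w` and `δ ≤ w - κ - 2`, then all the special sets of the problem meet every linear subspace
of `P^n` of codimension `δ`, so that their dimension is at least `δ`: there is a common zero on them
of any `δ` linear forms. In particular the special sets of a complete intersection `X` with
`1 ≤ κ ≤ dim X - 3`, of general type if it is smooth, have codimension at most `κ + 2`. For very
general hypersurfaces of degree `d` of `P^n`, `(3 n + 1) / 2 ≤ d`, the special sets of algebraic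
origin have exactly this dimension `2 n - 2 - d` (Clemens, Ran, Pacienza: they are the union of the
lines); here the lower bound is proved for ALL members, and for all weighted complete intersections.

The points are on curves `C ⊂ X` which are mapped isomorphically onto a line of `P^n` (which meets the
linear subspace). `SpRat` is the Zariski closure of the union of the rational curves of `X`; it is
contained in `Sp_alg`, as rational curves are not of general type. `SpSab`, `SpHol`, `SpPic`
(`Pool/Graph/R_pool_sql_team_seeded_f72693b1/W600/Alg/Thm.lean`) are the closures of the unions of the
images of the nonconstant morphisms from one-dimensional semi-abelian varieties, of the nonconstant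
entire curves, and of the maps from the punctured disc with an essential singularity; so they are
contained in `Sp_sab`, and equal to `Sp_h`, `Sp_p`.

Proof. For the very general member all the coefficients of the equations are algebraically
independent functions on the space of pairs (curve over a line through a point of the linear
subspace, equations which vanish on it): the differential is surjective at a suitable point. Then
specialise with a valuation ring; the coordinates `w` remain integral as `X` is finite over `P^n`,
and the point in the linear subspace specialises to such a point.

Authors of the parts (swarm SD): helpers 4, 6, 9, 36, 45, 51, 66, 67, 71, 72, and the authors of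
`MP_c7af3c_ag.WeightedIntersections` (helpers 16, 23, 36, 38, 52, 61, 81, 95).
-/

set_option autoImplicit false

namespace Pool.Agent.Results.MP_160ed4_ag.SpecialSetDimension

open MvPolynomial Pool.Agent.W600.Alg Pool.Agent.Helper23.WC Pool.Agent.Helper4.SD

theorem result {n r s : ℕ} (e : Fin r → ℕ) (he : ∀ i, 0 < e i) (D : Fin s → ℕ)
    (hD : ∀ j, 1 ≤ D j) (H : Fin s → MvPolynomial (Fin (n + 1) ⊕ Fin r) ℂ)
    (hH : ∀ j, IsWeightedHomogeneous (wt e) (H j) (D j)) (h0 : Fin0 H)
    {δ : ℕ} (h1 : 1 ≤ δ) (hδ : s + δ ≤ n + r)
    (hS : ∑ j, (D j + 1) + δ + 1 ≤ ∑ i, (e i + 1) + 2 * n)
    (A : Fin δ → Fin (n + 1) → ℂ) :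
    ∃ R ∈ WPts H, (∀ i, ∑ l, A i l * R.1 l = 0) ∧ R ∈ SpRat e (WPts H) ∧
      R ∈ SpSab e (WPts H) ∧ R ∈ SpHol e (WPts H) ∧ R ∈ SpPic e (WPts H) (WPts H) :=
  Pool.Agent.Helper4.SD.all e he D hD H hH h0 h1 hδ hS A

end Pool.Agent.Results.MP_160ed4_ag.SpecialSetDimension
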